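import Pool.Agent.H13.PRV.All

/-!
# MP_81dc49: the Poonen-Rains law for 2-Selmer groups over every global function field of odd
# characteristic

`K` is a function field in one variable over a finite field of odd order and `v` any place of `K`.
`HypV v g h` is the set of all equations `y² = f(x)`, `f = x^(2g+1) + a_1 x^(2g) + ... + a_(2g+1)`, of
height at most `h`: `a_i` is regular outside `v` and has at `v` a pole of order at most `i h`.  For
`g = 1` these are the elliptic curves `y² = x³ + a_1 x² + a_2 x + a_3` over `K`.

The families.  `T` is a finite set of `k` places `w ≠ v` of large norm, `T'` a finite set of further
places, which contains a fixed finite set `A`; `Fam v π g D h` is the set of all `f` of height `h` for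
which the scheme `f(x) = 0` is regular outside `v`, which are congruent modulo `w ∈ T` to a given
`(x - c) γ` with `γ` irreducible of degree `2 g`, congruent modulo the places of `T'` to given
irreducible polynomials, and with a given irreducible polynomial of top coefficients at `v`.  The
element `d w` has order one at `w` and order zero at all other places outside `T' ∪ {v}`.  If
`k = 2 j + 1`, `Tw` is the set of the quadratic twists of these curves by the products of the `d w`,
`w ∈ S`, for the sets `S` of `j` or `j + 1` elements of `T`.

The law (`Law`).  This family has positive density among all curves of genus `g`, and the 2-Selmer
groups of its elements are distributed as predicted by Poonen and Rains: the `l¹`-distance is at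
most `ε` if `k` is large.  The 2-Selmer rank is even for one half of them, and the 2-Selmer group
is trivial for 20.97 per cent, up to `ε`.  For `g = 1` the group `E(K)` is finite for 20.97 per
cent, and finitely generated of rank at most one for 62.91 per cent of the curves.  These statements
hold also for the equations with `a_1 = 0` in place of all equations, if the characteristic does not
divide `2 g + 1` and the data have trace zero (such data exist).  Moreover, the law holds for the
twists of the single polynomial `f`, for all but a proportion of `ε` of the `f` in `Fam`, and then
exactly one half of the twists have even 2-Selmer rank (`LawT`).

Many twists (`Multi`).  If `k = 2 j + 2` and `w ∈ T`, for 20.97 per cent, up to `ε`, of the twists of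
`Fam` by the products of `d w` and the `d w'`, `w' ∈ S`, `S` a set of `j` or `j + 1` elements of `T`
without `w`, there are `m + 1` elements `t_0, ..., t_m` of `K`, independent modulo squares, such that
for each of the `2^(m+1)` products of some of them the 2-Selmer group of the twist is trivial if
`t_0` is a factor, and has exactly two elements if not; the nontrivial class is then nontrivial
over the completion at `w`.  All `t_i` have order zero outside `T`, `T'` and `v`, and also at `w` if
`i ≠ 0`.  The same holds for the equations with `a_1 = 0`, as above.  (Remark, not used: for
`g = 1`, if the degree of `w` is odd and the degrees of the other places of `T` are even, the heights
of the points of the Tate module are odd at this class, so the L-function vanishes to the exact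
order one, and by theorems of Ulmer and Qiu the rank is one, in characteristic greater than three;
then the rank over the field generated by the square roots of the `t_i` is exactly `2^m`.)

Proof: class groups and a reciprocity law show that the types at `T` of the classes of square norm
which are unramified outside `T` form a maximal isotropic subspace `M` of a hyperbolic quadratic
space over the field with two elements; the 2-Selmer groups of the twists are the intersections of
`M` with coordinate subspaces; counting pairs of symmetric matrices shows that the supports of the
elements of these intersections are equidistributed, for almost all `f`; this gives a recursion for
the distribution, of which the Poonen-Rains law is the only solution.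
-/

open Polynomial Pool.PRV

namespace Pool.Agent.Results.MP_81dc49_nt.PoonenRains

/-- The law of Poonen and Rains, up to `ε`, for the 2-Selmer groups of the Jacobians of the curves
`y² = f(x)` of genus `g` in explicit families of positive density, over every global function field
of odd characteristic and for every place `v` with uniformizer `π`. -/
theorem result (F : Type) [Field F] [Finite F] (h2 : (2 : F) ≠ 0) (K : Type) [Field K]
    [Algebra F K] [Algebra.EssFiniteType F K] (htr : Algebra.trdeg F K = 1)
    (v : ValuationSubring K) (hv : v ≠ ⊤) (π : K) (hπ : Unif v π) (g : ℕ) (hg : 1 ≤ g) :
    Main v π g :=
  main_thm F h2 K htr v hv π hπ g hg

end Pool.Agent.Results.MP_81dc49_nt.PoonenRains
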