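import Pool.Agent.H70.PNX.Conv2

/-!
# The Poonen-Rains law for the 2-Selmer groups of elliptic curves over every number field, and the
# ranks over infinitely many extensions

`K` is a number field, `𝓞 K` its ring of integers.  For a monic cubic polynomial
`f = x³ + a₁ x² + a₂ x + a₃` over `K` let `E_f` be the curve `y² = f(x)`.  `All K Y` is the set of all
`f` with `aᵢ` in `𝓞 K` and `|σ(aᵢ)| ≤ Yⁱ` for all embeddings `σ` of `K` in the complex numbers: all
elliptic curves over `K`, ordered by the height of integral equations.  `sel f` is the number of
elements of the 2-Selmer group of `E_f` over `K` in its classical description (with the conditions at
all finite and real places).
`PR r` is the probability of 2-Selmer rank `r` in the law of Poonen and Rains.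

The families.  `T'` is a finite set of primes of `K` which contains a certain finite set `A`, in
particular the primes above `2` and `3`; `T` is a finite set of `k` further primes of large norm, `k`
odd.  `Fam D Y` is the set of all `f` near `x³ - Y³` at the archimedean places such that `𝓞 K[x]/(f)`
is regular (`f` is smooth), and which are congruent to given polynomials `(x - c) γ`, `γ` irreducible
of degree two, at the primes of `T`, and to given irreducible polynomials at the primes of `T'`.  The
integers `dS S`, `S ⊆ T`, are congruent to `1` modulo `8`, of order one at the primes of `S` and of
order zero at the other primes outside `T'`.  `Tw` is the set of the quadratic twists of these curves
by the `dS S` for the sets `S` of `j` or `j + 1` elements of `T`, `k = 2 j + 1`.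

The theorem.  (1) (`Main K`) If `k` is large and the norms of the primes of `T` are large, the twists
of `Fam D Y` have positive density in `All K (2 E Y)` (`dS S` in `Bx K E`), and their 2-Selmer groups
are distributed as predicted by Poonen and Rains: the `l¹`-distance is at most `ε`.  The 2-Selmer rank
is even for one half of them, and the 2-Selmer group is trivial for 20.97 per cent, up to `ε`; hence
the group `E_f(K)` is finite of odd order for 20.97 per cent, and its rank is at most one for 62.91
per cent, up to `ε`.  The law holds also for the twists of one single polynomial `f`, for all but a
proportion of `ε` of the `f` in `Fam D Y`, and then exactly one half of the twists have even 2-Selmer
rank (`LawT`).  The same is true for the curves with `a₁ = 0`, that is `y² = x³ + a x + b`.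

Moreover (`Ab`), for every one of these twists `q` let `2^r` be the number `sel q`.
For every Galois extension `E` of `K` whose degree `n` is a power of two, in which the primes of `T` and
the primes above `2` split completely and every other prime is unramified or `f` is irreducible modulo
this prime (`Ext K T f E`), the 2-Selmer group of `y² = q(x)` over `E` has at most `2^(r n)` elements;
the rank over `E` is at most `r n`, and if `r = 0` the group of the points over `E` is finite of odd
order (`Bd`).  The 20.97 per cent with `r = 0` have rank zero over all these extensions at once.
For every given extension `E₀` of `K` of this kind, unramified outside `T'`, there are such data `D`
with `T` split completely in `E₀` (then `E₀` is one of the extensions `E`).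
(2) (`Ranks K`) For every `r` and every Galois extension `E₀` of `K` whose degree is a power of two and
in which the primes above `2` split completely there is a finite set `T` of primes, split completely
in `E₀`, such that a positive proportion of all curves, and of all curves `y² = x³ + a x + b`, has a
2-Selmer group over `K` with exactly `2^r` elements, no point of order two, rank at most `r`, and the
properties `Bd` over `E₀` and over all extensions `E` in `Ext K T f E`.  For `r = 0`: for every such
`E₀` a positive proportion of all elliptic curves over `K` has rank zero over `E₀`.

Proof.  The classes of square norm in `K[x]/(f)` modulo squares which are unramified outside `T` and
belong to classes of divisors over the completions above two are described by their types at the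
primes of `T`; class field theory (genus theory of the quadratic extensions of `K[x]/(f)`) shows that
there are `2^k` of them, and a reciprocity law shows that the types form a maximal isotropic subspace
`M` of a hyperbolic quadratic space over the field with two elements.  The 2-Selmer groups of the
twists are the intersections of `M` with coordinate subspaces.  Counting pairs of integral symmetric
matrices (geometry of numbers over `𝓞 K`, a first moment with local conditions) shows that for almost
all `f` the supports of the elements of these intersections are equidistributed; this gives a
recursion for the distribution, of which the Poonen-Rains law is the only solution.  The classes in
the 2-Selmer group over `E` which are invariant under the Galois group come from classes over `K`,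
because `f` has odd degree; these are classes in the 2-Selmer group over `K`: at the primes of `T` and
above two nothing changes, at the unramified primes the classes are those of units, and at the primes
modulo which `f` is irreducible there are no nontrivial classes.  A 2-group which acts on a vector
space `V` over the field with two elements satisfies `dim V ≤ n dim V^G`, `n` its order.
-/

open NumberField

namespace Pool.Agent.Results.MP_81dc49_nt.PoonenRainsNumberFields

/-- For every number field `K`: the law of Poonen and Rains, up to `ε`, for the 2-Selmer groups of
elliptic curves over `K` in explicit families of positive density, with bounds for the 2-Selmer groups
and ranks over infinitely many extensions of `K` (`Main`), and for every `r` and every extension `E`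
of 2-power degree in which the primes above `2` split completely, 2-Selmer rank `r` over `K` and
bounds over `E` and infinitely many other extensions for a positive proportion of all elliptic
curves over `K` (`Ranks`). -/
theorem result (K : Type) [Field K] [NumberField K] :
    Pool.PNX.Main (𝓞 K) K ∧ Pool.PNX.Ranks (𝓞 K) K :=
  Pool.PNX.main_thm K

end Pool.Agent.Results.MP_81dc49_nt.PoonenRainsNumberFields
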