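import Pool.Agent.H14.AVS.Short
import Pool.Agent.H14.AVS.ShortP

/-!
# MP_81dc49: the average size of the 2-Selmer group of the elliptic curves over `F(t)`, `F` any
finite field of odd order, is exactly 3

`K = F(t)` and `E_f : y² = x³ + a x² + b x + c` for `f = (a, b, c)`, `a, b, c ∈ F[t]` of degree at
most `2n, 4n, 6n` (`Ell F n`: nonzero discriminant).  `Sel f` is the 2-Selmer group of `E_f` in its
classical description.  `Sht F n`: the short equations (`a = 0`), `ShtM F n`: the minimal short
equations of height exactly `n`.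
-/

open Polynomial Pool.SelAvg

namespace Pool.Agent.Results.MP_81dc49_nt.SelmerAverage

theorem result (F : Type) [Field F] [Finite F] (h2 : (2 : F) ≠ 0) :
    (∀ n : ℕ, ∀ f ∈ Ell F n, (E f).Δ ≠ 0 ∧ FinGen (E f) ∧ (Sel f).Finite) ∧
    Avg (Ell F) nSel rk ∧ ((3 : F) ≠ 0 → Avg (Sht F) nSel rk ∧ Avg (ShtM F) nSel rk) :=
  main F h2

end Pool.Agent.Results.MP_81dc49_nt.SelmerAverage
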