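import Mathlib
import Pool.Agent.H8.SC3.Main

/-!
# MP_81dc49: the average size of the 3-Selmer group of the elliptic curves over `F(t)`, `F` any
finite field of odd order, is exactly 4

`K = F(t)` and `E_f : y² = x³ + a x² + b x + c` for `f = (a, b, c)`.  `Fam F n` is the set of all
`f = (a, b, c)` with `a, b, c ∈ F[t]` of degree at most `2n, 4n, 6n` (the height `n` of integral
equations), `Ell F n` the subset of the elliptic curves (nonzero discriminant), `El F n` the same with
`a ≠ 0` if `F` has characteristic three (in characteristic different from three it is `Ell F n`).
`Sht F n` is the set of the short equations `y² = x³ + b x + c` of height `n` and `ShtM F n` the set of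
the minimal short equations of height exactly `n`.  `rank (kf f)` is the rank of the group `E_f(K)`,
`card3 (kf f)` is the order of `E_f(K) / 3 E_f(K)` and `Sel3 f` is the 3-Selmer group of `E_f`, as a
set: the classes of ternary cubic forms over `K` which over every completion of `K` are equivalent to
the form of a point of `E_f`.

The theorem.  The Selmer group `Sel3 f` is finite and `3 ^ rank ≤ #(E_f(K) / 3 E_f(K)) ≤ #(Sel3 f)`.
The average of `#(Sel3 f)` over the family `El F n` tends to 4 for `n → ∞`, for every finite field
`F` of odd order; hence the average rank is at most `7 / 6 + o(1)` and a proportion of at least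
`5 / 8 - o(1)` of the curves has rank zero or one (`Avg3`).  All but at most `3 q ^ (10 n + 3)` of the
`q ^ (12 n + 3)` elements of `Fam F n`, `q = #F`, are in `El F n`.  If `3 ≠ 0` in `F` the same averages
hold for the short equations and for the minimal short equations, that is for the isomorphism classes
of elliptic curves over `K` ordered by their height, each class being counted with the number of its
minimal short equations.

The proof.  A class in the Selmer group together with a lattice at every place (an integral model of
the plane cubic in which a local point has smooth reduction) is a ternary cubic form on a vector bundle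
`O(d₁) ⊕ O(d₂) ⊕ O(d₃)` of rank three over the projective line.  The gaps `dᵢ₊₁ - dᵢ` of the bundles
with models of nontrivial classes are bounded in terms of `n`, and the trivial class has no models if
the gaps are small.  The lattices at one place, counted together with the smooth points of the
reduction, are given by a mass formula for cubic forms over finite local rings.  The forms on each
bundle are counted by their coefficients, with the local densities at the primes of a finite set and,
for the lower bound, with a sieve for the large primes whose squares divide the discriminant.  The sum
of the main terms over all bundles (the Siegel formula for vector bundles of rank three) is equal to 3,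
the average number of the nontrivial classes.
-/

open Polynomial Pool.SC3

namespace Pool.Agent.Results.MP_81dc49_nt.ThreeSelmerAverage

/-- For every finite field `F` of odd order: the groups `E_f(K)` are finitely generated; the Selmer
groups are finite and bound the ranks; almost all equations are in `El F n`; the average size of the
3-Selmer group over `El F n` tends to 4 (`Avg3`), and if `3 ≠ 0` in `F` also over the short and over
the minimal short equations. -/
theorem result (F : Type) [Field F] [Finite F] (h2 : (2 : F) ≠ 0) :
    (∀ n : ℕ, ∀ f ∈ Ell F n, FinGen (kf f)) ∧
    (∀ n : ℕ, ∀ f ∈ El F n, Finite (Sel3 f) ∧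
      3 ^ rank (kf f) ≤ card3 (kf f) ∧ card3 (kf f) ≤ Nat.card (Sel3 f)) ∧
    (∀ n : ℕ, 1 ≤ n → (Fam F n).ncard = Nat.card F ^ (12 * n + 3) ∧
      {f ∈ Fam F n | f ∉ El F n}.ncard ≤ 3 * Nat.card F ^ (10 * n + 3)) ∧
    Avg3 (El F) ∧ ((3 : F) ≠ 0 → Avg3 (Sht F) ∧ Avg3 (ShtM F)) :=
  Pool.SC3.main F h2

end Pool.Agent.Results.MP_81dc49_nt.ThreeSelmerAverage
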